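import Mathlib

namespace Pool.Agent.H.MP_27ff1b_co

open Finset

variable {V : Type}

/-- colouring of a relation on a finite set -/
def Col (r : V → V → Prop) (S : Finset V) (n : ℕ) : Prop :=
  ∃ f : V → ℕ, (∀ v ∈ S, f v < n) ∧ ∀ u ∈ S, ∀ v ∈ S, u ≠ v → r u v → f u ≠ f v

theorem Col.empty (r : V → V → Prop) (n : ℕ) : Col r ∅ n :=
  ⟨fun _ => 0, by simp, by simp⟩

theorem Col.mono {r r' : V → V → Prop} {S S' : Finset V} {n n' : ℕ} (h : Col r S n)
    (hS : S' ⊆ S) (hn : n ≤ n') (hr : ∀ u ∈ S', ∀ v ∈ S', u ≠ v → r' u v → r u v) :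
    Col r' S' n' := by
  obtain ⟨f, h1, h2⟩ := h
  exact ⟨f, fun v hv => lt_of_lt_of_le (h1 v (hS hv)) hn,
    fun u hu v hv huv hr' => h2 u (hS hu) v (hS hv) huv (hr u hu v hv huv hr')⟩

theorem Col.union {r : V → V → Prop} {S S1 S2 : Finset V} {n m : ℕ} (h1 : Col r S1 n)
    (h2 : Col r S2 m) (hS : ∀ v ∈ S, v ∈ S1 ∨ v ∈ S2) : Col r S (n + m) := by
  classical
  obtain ⟨f, f1, f2⟩ := h1
  obtain ⟨g, g1, g2⟩ := h2
  refine ⟨fun v => if v ∈ S1 then f v else n + g v, ?_, ?_⟩
  · intro v hv
    by_cases h : v ∈ S1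
    · have := f1 v h
      simp only [h, if_true]; omega
    · have := g1 v ((hS v hv).resolve_left h)
      simp only [h, if_false]; omega
  · intro u hu v hv huv hr
    by_cases a : u ∈ S1 <;> by_cases b : v ∈ S1 <;> simp only [a, b, if_true, if_false]
    · exact f2 u a v b huv hr
    · have := f1 u a; omega
    · have := f1 v b; omega
    · have := g2 u ((hS u hu).resolve_left a) v ((hS v hv).resolve_left b) huv hr
      omega

theorem Col.classes {r : V → V → Prop} {S : Finset V} {n m : ℕ} (g : V → ℕ)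
    (hg : ∀ v ∈ S, g v < m) (h : ∀ i < m, Col r (S.filter (fun v => g v = i)) n) :
    Col r S (m * n) := by
  classical
  have : ∀ i, ∃ f : V → ℕ, i < m → ((∀ v ∈ S.filter (fun v => g v = i), f v < n) ∧
      ∀ u ∈ S.filter (fun v => g v = i), ∀ v ∈ S.filter (fun v => g v = i),
        u ≠ v → r u v → f u ≠ f v) := by
    intro i
    by_cases hi : i < m
    · obtain ⟨f, hf⟩ := h i hi
      exact ⟨f, fun _ => hf⟩
    · exact ⟨fun _ => 0, fun h => absurd h hi⟩
  choose f hf using this
  have hlt : ∀ v ∈ S, f (g v) v < n := fun v hv =>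
    (hf (g v) (hg v hv)).1 v (by simp [hv])
  refine ⟨fun v => g v * n + f (g v) v, ?_, ?_⟩
  · intro v hv
    have h1 := hlt v hv
    have h2 := hg v hv
    have : (g v + 1) * n ≤ m * n := Nat.mul_le_mul_right n h2
    show g v * n + f (g v) v < m * n
    nlinarith
  · intro u hu v hv huv hr heq
    have h1 := hlt u hu
    have h2 := hlt v hv
    have heq' : g u * n + f (g u) u = g v * n + f (g v) v := heq
    have hn : 0 < n := by omega
    have e1 : g u = g v := by
      have a1 : (g u * n + f (g u) u) / n = g u := by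
        rw [mul_comm, Nat.mul_add_div hn, Nat.div_eq_of_lt h1]; rfl
      have a2 : (g v * n + f (g v) v) / n = g v := by
        rw [mul_comm, Nat.mul_add_div hn, Nat.div_eq_of_lt h2]; rfl
      rw [← a1, ← a2, heq']
    rw [e1] at heq'
    exact (hf (g v) (hg v hv)).2 u (by simp [hu, e1]) v (by simp [hv]) huv hr (by omega)

theorem Col.pass {r r' : V → V → Prop} {S : Finset V} {n m : ℕ} (h1 : Col r' S m)
    (h : ∀ S' ⊆ S, (∀ u ∈ S', ∀ v ∈ S', u ≠ v → ¬ r' u v) → Col r S' n) : Col r S (m * n) := by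
  obtain ⟨g, g1, g2⟩ := h1
  refine Col.classes g g1 (fun i _ => h _ (filter_subset _ _) ?_)
  intro u hu v hv huv hr
  rw [mem_filter] at hu hv
  exact g2 u hu.1 v hv.1 huv hr (by rw [hu.2, hv.2])

theorem Col.multi {r : ℕ → V → V → Prop} {S : Finset V} {n : ℕ} (m : ℕ)
    (h : ∀ i < m, Col (r i) S n) : Col (fun u v => ∃ i < m, r i u v) S (n ^ m) := by
  induction m with
  | zero => exact ⟨fun _ => 0, by simp, by simp⟩
  | succ m ih =>
    have h1 := ih (fun i hi => h i (by omega))
    rw [pow_succ]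
    refine Col.pass h1 (fun S' hS' hno => (h m (by omega)).mono hS' le_rfl ?_)
    rintro u hu v hv huv ⟨i, hi, hr⟩
    by_cases him : i = m
    · exact him ▸ hr
    · exact absurd ⟨i, by omega, hr⟩ (hno u hu v hv huv)

theorem Col.outdeg (r : V → V → Prop) [DecidableRel r] (D : ℕ) (S : Finset V)
    (h : ∀ v ∈ S, (S.filter (fun u => r v u)).card ≤ D) : Col r S (2 * D + 1) := by
  classical
  induction S using Finset.strongInduction with
  | H S ih =>
    rcases S.eq_empty_or_nonempty with rfl | hne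
    · exact Col.empty _ _
    have hex : ∃ v ∈ S, (S.filter (fun u => r u v)).card ≤ D := by
      by_contra hc
      push Not at hc
      have e : ∑ v ∈ S, (S.filter (fun u => r v u)).card =
          ∑ v ∈ S, (S.filter (fun u => r u v)).card := by
        simp only [card_filter]
        exact sum_comm
      have a1 : ∑ v ∈ S, (S.filter (fun u => r v u)).card ≤ ∑ v ∈ S, D := sum_le_sum h
      have a2 : ∑ v ∈ S, D < ∑ v ∈ S, (S.filter (fun u => r u v)).card :=
        sum_lt_sum_of_nonempty hne hc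
      omega
    obtain ⟨v, hv, hin⟩ := hex
    obtain ⟨f, f1, f2⟩ := ih (S.erase v) (erase_ssubset hv) (fun u hu =>
      le_trans (card_le_card (filter_subset_filter _ (erase_subset _ _)))
        (h u (mem_of_mem_erase hu)))
    have hc : ∃ a ∈ range (2 * D + 1), a ∉ ((S.filter (fun u => r v u)) ∪
        (S.filter (fun u => r u v))).image f := by
      apply exists_mem_notMem_of_card_lt_card
      have := card_image_le (s := (S.filter (fun u => r v u)) ∪ (S.filter (fun u => r u v))) (f := f)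
      have := card_union_le (S.filter (fun u => r v u)) (S.filter (fun u => r u v))
      have := h v hv
      rw [card_range]; omega
    obtain ⟨a, ha, ha'⟩ := hc
    refine ⟨Function.update f v a, ?_, ?_⟩
    · intro u hu
      by_cases huv : u = v
      · subst huv; simpa using ha
      · rw [Function.update_of_ne huv]; exact f1 u (mem_erase.2 ⟨huv, hu⟩)
    · intro x hx y hy hxy hr
      by_cases a1 : x = v
      · subst a1
        rw [Function.update_self, Function.update_of_ne hxy.symm]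
        intro e
        exact ha' (mem_image.2 ⟨y, mem_union_left _ (mem_filter.2 ⟨hy, hr⟩), e.symm⟩)
      · by_cases a2 : y = v
        · subst a2
          rw [Function.update_self, Function.update_of_ne a1]
          intro e
          exact ha' (mem_image.2 ⟨x, mem_union_right _ (mem_filter.2 ⟨hx, hr⟩), e⟩)
        · rw [Function.update_of_ne a1, Function.update_of_ne a2]
          exact f2 x (mem_erase.2 ⟨a1, hx⟩) y (mem_erase.2 ⟨a2, hy⟩) hxy hr

/-- induced copy of the ordered tree with parent map `p` on `t` vertices -/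
def Cp (G : SimpleGraph V) (p : ℕ → ℕ) (t : ℕ) (S : Finset V) (φ : ℕ → V) : Prop :=
  (∀ i < t, φ i ∈ S) ∧ ∀ j < t, ∀ i < j, φ i ≠ φ j ∧ (G.Adj (φ i) (φ j) ↔ i = p j)

theorem Cp.mono {G : SimpleGraph V} {p : ℕ → ℕ} {t : ℕ} {S S' : Finset V} {φ : ℕ → V}
    (h : Cp G p t S φ) (hS : S ⊆ S') : Cp G p t S' φ :=
  ⟨fun i hi => hS (h.1 i hi), h.2⟩

theorem Cp.ne {G : SimpleGraph V} {p : ℕ → ℕ} {t : ℕ} {S : Finset V} {φ : ℕ → V}
    (h : Cp G p t S φ) {i j : ℕ} (hi : i < t) (hj : j < t) (hij : i ≠ j) : φ i ≠ φ j := by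
  rcases lt_or_gt_of_ne hij with a | a
  · exact (h.2 j hj i a).1
  · exact (h.2 i hi j a).1.symm

theorem Cp.ext {G : SimpleGraph V} {p : ℕ → ℕ} {t : ℕ} {S : Finset V} {φ : ℕ → V}
    (h : Cp G p t S φ) {x : V} (hx : x ∈ S)
    (h2 : ∀ i < t, φ i ≠ x ∧ (G.Adj (φ i) x ↔ i = p t)) :
    Cp G p (t + 1) S (Function.update φ t x) := by
  constructor
  · intro i hi
    by_cases a : i = t
    · subst a; simpa using hx
    · rw [Function.update_of_ne a]; exact h.1 i (by omega)
  · intro j hj i hi
    have hi' : i ≠ t := by omega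
    rw [Function.update_of_ne hi']
    by_cases a : j = t
    · subst a; rw [Function.update_self]; exact h2 i hi
    · rw [Function.update_of_ne a]; exact h.2 j (by omega) i hi

theorem Cp.one (G : SimpleGraph V) (p : ℕ → ℕ) {S : Finset V} {x : V} (hx : x ∈ S) :
    Cp G p 1 S (fun _ => x) :=
  ⟨fun _ _ => hx, fun j hj i hi => by omega⟩

theorem avoid [DecidableEq V] (C : Finset V) (t b : ℕ) (Z : ℕ → Finset V)
    (hZ : ∀ i < t, (Z i).card ≤ b) (hC : t * b < C.card) : ∃ x ∈ C, ∀ i < t, x ∉ Z i := by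
  have : ((range t).biUnion Z).card ≤ t * b := by
    have := card_biUnion_le_card_mul (range t) Z b (fun i hi => hZ i (mem_range.1 hi))
    simpa using this
  obtain ⟨x, hx, hx'⟩ := exists_mem_notMem_of_card_lt_card (lt_of_le_of_lt this hC)
  exact ⟨x, hx, fun i hi h => hx' (mem_biUnion.2 ⟨i, mem_range.2 hi, h⟩)⟩

end Pool.Agent.H.MP_27ff1b_co
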