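import Pool.Agent.H.MP_27ff1b_co.A

namespace Pool.Agent.H.MP_27ff1b_co

open Finset

variable {V : Type}

/-- block systems -/
structure Blk (G : SimpleGraph V) (c k s : ℕ) (B : Set (Finset V)) (cl : Finset V → V → ℕ) :
    Prop where
  lt : ∀ Y ∈ B, ∀ v ∈ Y, cl Y v < k
  ind : ∀ Y ∈ B, ∀ u ∈ Y, ∀ v ∈ Y, G.Adj u v → cl Y u ≠ cl Y v
  out : ∀ Y ∈ B, ∀ v, ∀ A : Finset V, (∀ a ∈ A, a ∈ Y ∧ G.Adj v a) → c < A.card → v ∈ Y
  inter : ∀ Y ∈ B, ∀ Y' ∈ B, ∀ A : Finset V, (∀ a ∈ A, a ∈ Y ∧ a ∈ Y') → c < A.card → Y = Y'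
  comp : ∀ U W : Finset V, s ≤ U.card → s ≤ W.card → (∀ u ∈ U, ∀ w ∈ W, G.Adj u w) →
    ∃ Y ∈ B, ∀ u ∈ U, u ∈ Y

/-- designated blocks -/
structure Des (G : SimpleGraph V) (B : Set (Finset V)) (D : ℕ) (S0 : Finset V)
    (des : V → Finset (Finset V)) : Prop where
  card : ∀ v ∈ S0, (des v).card ≤ D
  blk : ∀ v ∈ S0, ∀ Y ∈ des v, Y ∈ B ∧ v ∈ Y
  cov : ∀ v ∈ S0, ∀ u ∈ S0, G.Adj v u → ∃ Y ∈ des v, u ∈ Y

def Rr (cl : Finset V → V → ℕ) (des : V → Finset (Finset V)) (X : V → Finset V) (β : ℕ)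
    (w u : V) : Prop :=
  X w ∈ des w ∧ cl (X w) w ≠ β ∧ X w ∈ des u ∧ cl (X w) u ≠ β

def Hh (G : SimpleGraph V) (cl : Finset V → V → ℕ) (des : V → Finset (Finset V))
    (X : V → Finset V) (β : ℕ) (v x : V) : Prop :=
  X v ∈ des v ∧ G.Adj v x ∧ x ∈ X v ∧ cl (X v) x = β

theorem regB0 (c k s D : ℕ) (p : ℕ → ℕ) (hp : ∀ i, 0 < i → p i < i) (t : ℕ) :
    ∃ n, ∀ (V : Type) (G : SimpleGraph V) (B : Set (Finset V)) (cl : Finset V → V → ℕ)
      (S0 : Finset V) (des : V → Finset (Finset V)) (X : V → Finset V) (β : ℕ),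
      Blk G c k s B cl → Des G B D S0 des → ∀ S ⊆ S0, Col (Hh G cl des X β) S n ∨
        ∃ φ, Cp G p (t + 1) S φ ∧
          ∀ i < t + 1, ∀ j < t + 1, i ≠ j → ¬ Rr cl des X β (φ i) (φ j) := by
  induction t with
  | zero =>
    refine ⟨0, fun V G B cl S0 des X β _ _ S _ => ?_⟩
    rcases S.eq_empty_or_nonempty with rfl | ⟨x, hx⟩
    · exact Or.inl (Col.empty _ _)
    · exact Or.inr ⟨fun _ => x, Cp.one G p hx, fun i hi j hj hij => by omega⟩
  | succ t ih =>
    obtain ⟨n, hn⟩ := ih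
    refine ⟨n + (2 * ((t + 1) * (D * c + 1)) + 1), fun V G B cl S0 des X β hB hD S hS => ?_⟩
    classical
    set M := (t + 1) * (D * c + 1) with hM
    set S' := S.filter (fun v => M < (S.filter (fun x => Hh G cl des X β v x)).card) with hS'
    have hS'S : S' ⊆ S := filter_subset _ _
    rcases hn V G B cl S0 des X β hB hD S' (hS'S.trans hS) with h | ⟨φ, hφ, hR⟩
    · left
      have h2 : Col (Hh G cl des X β) (S \ S') (2 * M + 1) := by
        apply Col.outdeg
        intro v hv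
        rw [mem_sdiff] at hv
        have : ¬ M < (S.filter (fun x => Hh G cl des X β v x)).card := fun a =>
          hv.2 (mem_filter.2 ⟨hv.1, a⟩)
        exact le_trans (card_le_card (filter_subset_filter _ sdiff_subset)) (by omega)
      refine h.union h2 (fun v hv => ?_)
      by_cases a : v ∈ S'
      · exact Or.inl a
      · exact Or.inr (mem_sdiff.2 ⟨hv, a⟩)
    · right
      have hpt : p (t + 1) < t + 1 := hp _ (by omega)
      set w := φ (p (t + 1)) with hw
      have hwS' : w ∈ S' := hφ.1 _ hpt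
      have hwC := (mem_filter.1 hwS').2
      have hφ0 : ∀ i < t + 1, φ i ∈ S0 := fun i hi => hS (hS'S (hφ.1 i hi))
      have hw0 : w ∈ S0 := hφ0 _ hpt
      obtain ⟨x0, hx0⟩ : (S.filter (fun x => Hh G cl des X β w x)).Nonempty :=
        card_pos.1 (by omega)
      have hXw : X w ∈ des w := (mem_filter.1 hx0).2.1
      have hXB := hD.blk w hw0 _ hXw
      obtain ⟨x, hx, hxZ⟩ := avoid (S.filter (fun x => Hh G cl des X β w x)) (t + 1) (D * c + 1)
        (fun i => insert (φ i) (((des (φ i)).filter (fun Y => Y ≠ X w)).biUnion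
          (fun Y => Y ∩ X w))) (by
          intro i hi
          refine le_trans (card_insert_le _ _) (Nat.add_le_add_right ?_ 1)
          refine le_trans (card_biUnion_le_card_mul _ _ c ?_) ?_
          · intro Y hY
            rw [mem_filter] at hY
            by_contra hc
            exact hY.2 (hB.inter Y (hD.blk _ (hφ0 i hi) Y hY.1).1 _ hXB.1 (Y ∩ X w)
              (fun a ha => mem_inter.1 ha) (by omega))
          · exact Nat.mul_le_mul_right c (le_trans (card_filter_le _ _) (hD.card _ (hφ0 i hi))))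
        hwC
      rw [mem_filter] at hx
      obtain ⟨hxS, -, hadj, hxX, hxβ⟩ := hx
      have hx0' : x ∈ S0 := hS hxS
      have key : ∀ i < t + 1, ∀ Y ∈ des (φ i), x ∈ Y → Y = X w := by
        intro i hi Y hY hxY
        by_contra hne
        exact hxZ i hi (mem_insert_of_mem (mem_biUnion.2 ⟨Y, mem_filter.2 ⟨hY, hne⟩,
          mem_inter.2 ⟨hxY, hxX⟩⟩))
      have hne : ∀ i < t + 1, φ i ≠ x := fun i hi e => hxZ i hi (e ▸ mem_insert_self _ _)
      have hwβ : cl (X w) w ≠ β := hxβ ▸ hB.ind _ hXB.1 w hXB.2 x hxX hadj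
      refine ⟨Function.update φ (t + 1) x, (hφ.mono hS'S).ext hxS ?_, ?_⟩
      · intro i hi
        refine ⟨hne i hi, ?_, fun e => e ▸ hadj⟩
        intro ha
        by_contra hip
        obtain ⟨Y, hY, hxY⟩ := hD.cov _ (hφ0 i hi) x hx0' ha
        have e := key i hi Y hY hxY
        subst e
        apply hR (p (t + 1)) hpt i hi (fun e => hip e.symm)
        refine ⟨hXw, hwβ, hY, ?_⟩
        rw [← hxβ]
        exact hB.ind _ hXB.1 _ (hD.blk _ (hφ0 i hi) _ hY).2 x hxX ha
      · intro i hi j hj hij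
        by_cases a : i = t + 1
        · have hj' : j < t + 1 := by omega
          rw [a, Function.update_self, Function.update_of_ne (by omega)]
          rintro ⟨r1, r2, r3, -⟩
          have e := key j hj' _ r3 (hD.blk x hx0' _ r1).2
          rw [e] at r2
          exact r2 hxβ
        · have hi' : i < t + 1 := by omega
          rw [Function.update_of_ne a]
          by_cases b : j = t + 1
          · rw [b, Function.update_self]
            rintro ⟨r1, -, r3, r4⟩
            have e := key i hi' _ r1 (hD.blk x hx0' _ r3).2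
            rw [e] at r4
            exact r4 hxβ
          · rw [Function.update_of_ne b]
            exact hR i hi' j (by omega) hij

theorem regB (c k s D : ℕ) (p : ℕ → ℕ) (hp : ∀ i, 0 < i → p i < i) (t : ℕ) :
    ∃ n, ∀ (V : Type) (G : SimpleGraph V) (B : Set (Finset V)) (cl : Finset V → V → ℕ)
      (S0 : Finset V) (des : V → Finset (Finset V)),
      Blk G c k s B cl → Des G B D S0 des → (¬ ∃ φ, Cp G p (t + 1) S0 φ) → Col G.Adj S0 n := by
  obtain ⟨n, hn⟩ := regB0 c k s D p hp t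
  refine ⟨(n ^ k) ^ D, fun V G B cl S0 des hB hD hno => ?_⟩
  classical
  have h1 : ∀ X β, Col (Hh G cl des X β) S0 n := fun X β =>
    (hn V G B cl S0 des X β hB hD S0 subset_rfl).resolve_right (fun ⟨φ, h, _⟩ => hno ⟨φ, h⟩)
  have h2 := Col.multi (S := S0) (n := n ^ k)
    (r := fun l u v => ∃ β < k, Hh G cl des (fun v => (des v).toList.getD l ∅) β u v) D
    (fun l _ => Col.multi k (fun β _ => h1 _ β))
  refine h2.mono subset_rfl le_rfl ?_
  intro u hu v hv _ hadj
  obtain ⟨Y, hY, hvY⟩ := hD.cov u hu v hv hadj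
  obtain ⟨l, hl, e⟩ := List.getElem_of_mem (mem_toList.2 hY)
  have e' : (des u).toList.getD l ∅ = Y := by
    rw [List.getD_eq_getElem _ _ hl, e]
  refine ⟨l, ?_, cl Y v, hB.lt Y (hD.blk u hu Y hY).1 v hvY, ?_⟩
  · rw [length_toList] at hl
    exact lt_of_lt_of_le hl (hD.card u hu)
  · unfold Hh
    simp only [e']
    exact ⟨hY, hadj, hvY, trivial⟩

end Pool.Agent.H.MP_27ff1b_co
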