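import Pool.Agent.H.MP_27ff1b_co.B

namespace Pool.Agent.H.MP_27ff1b_co

open Finset

variable {V : Type}

/-- general position -/
def GP [DecidableEq V] (B : Set (Finset V)) (c : ℕ) (A : Finset V) : Prop :=
  ∀ Y ∈ B, (A ∩ Y).card ≤ c + 1

theorem bad_card [DecidableEq V] {G : SimpleGraph V} [DecidableRel G.Adj] {c k s : ℕ}
    {B : Set (Finset V)} {cl : Finset V → V → ℕ} (hB : Blk G c k s B cl) (hs : c + 2 ≤ s)
    (A S : Finset V) (hA : GP B c A) :
    (S.filter (fun u => s ≤ (A.filter (fun a => G.Adj u a)).card)).card ≤ 2 ^ A.card * s := by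
  by_contra hc
  push Not at hc
  obtain ⟨U, -, hU⟩ := exists_lt_card_fiber_of_mul_lt_card_of_maps_to
    (s := S.filter (fun u => s ≤ (A.filter (fun a => G.Adj u a)).card)) (t := A.powerset)
    (f := fun u => A.filter (fun a => G.Adj u a)) (n := s)
    (fun u _ => mem_powerset.2 (filter_subset _ _)) (by rw [card_powerset]; exact hc)
  obtain ⟨w0, hw0⟩ := card_pos.1 (lt_of_le_of_lt (Nat.zero_le _) hU)
  rw [mem_filter, mem_filter] at hw0
  have hUc : s ≤ U.card := hw0.2 ▸ hw0.1.2
  have hUA : U ⊆ A := hw0.2 ▸ filter_subset _ _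
  obtain ⟨Y, hY, hUY⟩ := hB.comp U _ hUc hU.le (by
    intro u hu w hw
    rw [mem_filter] at hw
    rw [← hw.2, mem_filter] at hu
    exact hu.2.symm)
  have h1 := hA Y hY
  have h2 : U.card ≤ (A ∩ Y).card :=
    card_le_card (fun u hu => mem_inter.2 ⟨hUA hu, hUY u hu⟩)
  omega

theorem cover [DecidableEq V] [Fintype V] {G : SimpleGraph V} {c k s : ℕ}
    {B : Set (Finset V)} {cl : Finset V → V → ℕ} (hB : Blk G c k s B cl) (M : ℕ)
    (S : Finset V) (v : V)
    (h : ¬ ∃ A : Finset V, (∀ a ∈ A, a ∈ S ∧ G.Adj v a) ∧ GP B c A ∧ A.card = M) :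
    ∃ (A : Finset V) (d : Finset (Finset V)), A.card ≤ M ∧ d.card ≤ 2 ^ M ∧
      (∀ Y ∈ d, Y ∈ B ∧ v ∈ Y) ∧ ∀ u ∈ S, G.Adj v u → u ∈ A ∨ ∃ Y ∈ d, u ∈ Y := by
  classical
  obtain ⟨A, hA, hmax⟩ := exists_max_image
    ((univ : Finset (Finset V)).filter
      (fun A => (∀ a ∈ A, a ∈ S ∧ G.Adj v a) ∧ GP B c A)) card
    ⟨∅, by simp [GP]⟩
  rw [mem_filter] at hA
  obtain ⟨-, hA1, hA2⟩ := hA
  have hAM : A.card ≤ M := by
    by_contra hc
    obtain ⟨A', hA', hc'⟩ := exists_subset_card_eq (s := A) (n := M) (by omega)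
    exact h ⟨A', fun a ha => hA1 a (hA' ha), fun Y hY =>
      le_trans (card_le_card (inter_subset_inter_right hA')) (hA2 Y hY), hc'⟩
  refine ⟨A, univ.filter (fun Y => Y ∈ B ∧ c < (A ∩ Y).card), hAM, ?_, ?_, ?_⟩
  · refine le_trans (card_le_card_of_injOn (t := A.powerset) (fun Y => A ∩ Y) ?_ ?_) ?_
    · intro Y _
      exact mem_coe.2 (mem_powerset.2 inter_subset_left)
    · intro Y hY Y' hY' e
      rw [mem_coe, mem_filter] at hY hY'
      refine hB.inter Y hY.2.1 Y' hY'.2.1 (A ∩ Y) (fun a ha => ⟨(mem_inter.1 ha).2, ?_⟩) hY.2.2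
      have e' : A ∩ Y = A ∩ Y' := e
      rw [e'] at ha
      exact (mem_inter.1 ha).2
    · rw [card_powerset]
      exact Nat.pow_le_pow_right (by norm_num) hAM
  · intro Y hY
    rw [mem_filter] at hY
    exact ⟨hY.2.1, hB.out Y hY.2.1 v (A ∩ Y)
      (fun a ha => ⟨(mem_inter.1 ha).2, (hA1 a (mem_inter.1 ha).1).2⟩) hY.2.2⟩
  · intro u hu hadj
    by_cases huA : u ∈ A
    · exact Or.inl huA
    right
    by_contra hc
    push Not at hc
    have := hmax (insert u A) (mem_filter.2 ⟨mem_univ _, ?_, ?_⟩)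
    · rw [card_insert_of_notMem huA] at this; omega
    · intro a ha
      rcases mem_insert.1 ha with rfl | ha
      · exact ⟨hu, hadj⟩
      · exact hA1 a ha
    · intro Y hY
      by_cases huY : u ∈ Y
      · rw [insert_inter_of_mem huY]
        have h1 : ¬ c < (A ∩ Y).card := fun a => hc Y (mem_filter.2 ⟨mem_univ _, hY, a⟩) huY
        have := card_insert_le u (A ∩ Y)
        omega
      · rw [insert_inter_of_notMem huY]
        exact hA2 Y hY

theorem abstract (c k s : ℕ) (hs : c + 2 ≤ s) (p : ℕ → ℕ) (hp : ∀ i, 0 < i → p i < i) (t : ℕ) :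
    ∃ n, ∀ (V : Type) [Fintype V] (G : SimpleGraph V) (B : Set (Finset V))
      (cl : Finset V → V → ℕ), Blk G c k s B cl →
      ∀ S : Finset V, (¬ ∃ φ, Cp G p (t + 1) S φ) → Col G.Adj S n := by
  induction t with
  | zero =>
    refine ⟨0, fun V _ G B cl _ S hno => ?_⟩
    rcases S.eq_empty_or_nonempty with rfl | ⟨x, hx⟩
    · exact Col.empty _ _
    · exact absurd ⟨_, Cp.one G p hx⟩ hno
  | succ t ih =>
    obtain ⟨n, hn⟩ := ih
    set M := (t + 1) * (s + 1) + 1 with hM
    obtain ⟨m, hm⟩ := regB c k s (2 ^ M) p hp (t + 1)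
    refine ⟨(2 * (2 ^ M * s) + 1) * n + (2 * M + 1) * m, fun V _ G B cl hB S hno => ?_⟩
    classical
    set SA := S.filter (fun v => ∃ A : Finset V, (∀ a ∈ A, a ∈ S ∧ G.Adj v a) ∧ GP B c A ∧
      A.card = M) with hSA
    have hSAS : SA ⊆ S := filter_subset _ _
    have h1 : Col G.Adj SA ((2 * (2 ^ M * s) + 1) * n) := by
      have : ∀ v, ∃ A : Finset V, v ∈ SA →
          ((∀ a ∈ A, a ∈ S ∧ G.Adj v a) ∧ GP B c A ∧ A.card = M) := by
        intro v
        by_cases hv : v ∈ SA
        · obtain ⟨A, hA⟩ := (mem_filter.1 hv).2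
          exact ⟨A, fun _ => hA⟩
        · exact ⟨∅, fun h => absurd h hv⟩
      choose A hA using this
      have hc : Col (fun v u => s ≤ ((A v).filter (fun a => G.Adj u a)).card) SA
          (2 * (2 ^ M * s) + 1) := by
        apply Col.outdeg
        intro v hv
        have := bad_card hB hs (A v) SA (hA v hv).2.1
        rw [(hA v hv).2.2] at this
        exact this
      refine Col.pass hc (fun S' hS' hind => hn V G B cl hB S' ?_)
      rintro ⟨φ, hφ⟩
      apply hno
      have hpt : p (t + 1) < t + 1 := hp _ (by omega)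
      set w := φ (p (t + 1)) with hw
      have hwS' : w ∈ S' := hφ.1 _ hpt
      have hAw := hA w (hS' hwS')
      obtain ⟨x, hx, hxZ⟩ := avoid (A w) (t + 1) (s + 1)
        (fun i => insert (φ i) (if i = p (t + 1) then ∅ else (A w).filter (fun a => G.Adj (φ i) a)))
        (by
          intro i hi
          refine le_trans (card_insert_le _ _) (Nat.add_le_add_right ?_ 1)
          split_ifs with a
          · simp
          · have := hind w hwS' (φ i) (hφ.1 i hi) (hφ.ne hpt hi (fun e => a e.symm))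
            omega)
        (by rw [hAw.2.2]; omega)
      refine ⟨_, (hφ.mono (hS'.trans hSAS)).ext (hAw.1 x hx).1 ?_⟩
      intro i hi
      refine ⟨fun e => hxZ i hi (e ▸ mem_insert_self _ _), ?_, fun e => e ▸ (hAw.1 x hx).2⟩
      intro ha
      by_contra hip
      apply hxZ i hi
      simp only [hip, if_false]
      exact mem_insert_of_mem (mem_filter.2 ⟨hx, ha⟩)
    have h2 : Col G.Adj (S \ SA) ((2 * M + 1) * m) := by
      have : ∀ v, ∃ (A : Finset V) (d : Finset (Finset V)), v ∈ S \ SA →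
          (A.card ≤ M ∧ d.card ≤ 2 ^ M ∧ (∀ Y ∈ d, Y ∈ B ∧ v ∈ Y) ∧
            ∀ u ∈ S, G.Adj v u → u ∈ A ∨ ∃ Y ∈ d, u ∈ Y) := by
        intro v
        by_cases hv : v ∈ S \ SA
        · rw [mem_sdiff] at hv
          obtain ⟨A, d, h⟩ := cover hB M S v (fun h => hv.2 (mem_filter.2 ⟨hv.1, h⟩))
          exact ⟨A, d, fun _ => h⟩
        · exact ⟨∅, ∅, fun h => absurd h hv⟩
      choose A des hA using this
      have hc : Col (fun v u => u ∈ A v) (S \ SA) (2 * M + 1) := by
        apply Col.outdeg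
        intro v hv
        exact le_trans (card_le_card (fun u hu => (mem_filter.1 hu).2)) (hA v hv).1
      refine Col.pass hc (fun S' hS' hind => hm V G B cl S' des hB ⟨?_, ?_, ?_⟩ ?_)
      · exact fun v hv => (hA v (hS' hv)).2.1
      · exact fun v hv => (hA v (hS' hv)).2.2.1
      · intro v hv u hu hadj
        exact ((hA v (hS' hv)).2.2.2 u (sdiff_subset (hS' hu)) hadj).resolve_left
          (hind v hv u hu hadj.ne)
      · rintro ⟨φ, hφ⟩
        exact hno ⟨φ, hφ.mono (hS'.trans sdiff_subset)⟩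
    refine h1.union h2 (fun v hv => ?_)
    by_cases a : v ∈ SA
    · exact Or.inl a
    · exact Or.inr (mem_sdiff.2 ⟨hv, a⟩)

theorem exists_leaf {α : Type} (F : SimpleGraph α) (hF : F.IsAcyclic) (S : Finset α)
    (hS : S.Nonempty) : ∃ x ∈ S, ∀ y ∈ S, ∀ z ∈ S, F.Adj x y → F.Adj x z → y = z := by
  classical
  have hF' := hF.induce (S : Set α)
  have : Nonempty (S : Set α) := by
    obtain ⟨x, hx⟩ := hS
    exact ⟨⟨x, hx⟩⟩
  obtain ⟨u, v, q, hq, hmax⟩ :=
    SimpleGraph.Walk.exists_isPath_forall_isPath_length_le_length (F.induce (S : Set α))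
  have key : ∀ w, (F.induce (S : Set α)).Adj u w → w = q.snd := by
    intro w hadj
    apply hF'.eq_snd_of_adj_start hq hadj
    by_contra hw
    have := hmax _ _ (q.cons hadj.symm) (hq.cons hw)
    simp at this
  refine ⟨u.1, u.2, fun y hy z hz h1 h2 => ?_⟩
  have a := key ⟨y, hy⟩ h1
  have b := key ⟨z, hz⟩ h2
  exact congrArg Subtype.val (a.trans b.symm)

theorem embed_tree {α : Type} (F : SimpleGraph α) (hF : F.IsAcyclic) (S : Finset α) :
    ∃ (t : ℕ) (p : ℕ → ℕ) (e : α → ℕ), (∀ i, 0 < i → p i < i) ∧ (∀ x ∈ S, e x < t + 1) ∧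
      ∀ x ∈ S, ∀ y ∈ S, x ≠ y → e x ≠ e y ∧ (e x < e y → (F.Adj x y ↔ e x = p (e y))) := by
  classical
  induction S using Finset.strongInduction with
  | H S ih =>
    rcases S.eq_empty_or_nonempty with rfl | hne
    · exact ⟨0, fun _ => 0, fun _ => 0, fun i hi => hi, by simp, by simp⟩
    obtain ⟨x, hx, hleaf⟩ := exists_leaf F hF S hne
    obtain ⟨t, p, e, hp, he, hadj⟩ := ih (S.erase x) (erase_ssubset hx)
    have : ∃ q, q < t + 2 ∧ ∀ y ∈ S.erase x, (F.Adj y x ↔ e y = q) := by
      by_cases h : ∃ y ∈ S.erase x, F.Adj y x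
      · obtain ⟨y, hy, hyx⟩ := h
        refine ⟨e y, by have := he y hy; omega, fun z hz => ⟨fun a => ?_, fun a => ?_⟩⟩
        · rw [hleaf z (mem_of_mem_erase hz) y (mem_of_mem_erase hy) a.symm hyx.symm]
        · by_cases b : z = y
          · exact b ▸ hyx
          · exact absurd a (hadj z hz y hy b).1
      · refine ⟨t + 1, by omega, fun z hz => ⟨fun a => absurd ⟨z, hz, a⟩ h, fun a => ?_⟩⟩
        have := he z hz
        omega
    obtain ⟨q, hq, hqa⟩ := this
    refine ⟨t + 2, Function.update p (t + 2) q, Function.update e x (t + 2), ?_, ?_, ?_⟩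
    · intro i hi
      by_cases a : i = t + 2
      · rw [a, Function.update_self]; exact hq
      · rw [Function.update_of_ne a]; exact hp i hi
    · intro y hy
      by_cases a : y = x
      · rw [a, Function.update_self]; omega
      · rw [Function.update_of_ne a]
        have := he y (mem_erase.2 ⟨a, hy⟩)
        omega
    · intro y hy z hz hyz
      by_cases a : y = x
      · have b : z ≠ x := fun b => hyz (a.trans b.symm)
        have := he z (mem_erase.2 ⟨b, hz⟩)
        rw [a, Function.update_self, Function.update_of_ne b]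
        exact ⟨by omega, fun h => by omega⟩
      · have hy' := mem_erase.2 ⟨a, hy⟩
        have := he y hy'
        rw [Function.update_of_ne a]
        by_cases b : z = x
        · rw [b, Function.update_self, Function.update_self]
          exact ⟨by omega, fun _ => hqa y hy'⟩
        · have hz' := mem_erase.2 ⟨b, hz⟩
          have := he z hz'
          rw [Function.update_of_ne b, Function.update_of_ne (by omega)]
          exact hadj y hy' z hz' hyz

theorem abstract_forest {α : Type} [Fintype α] (F : SimpleGraph α) (hF : F.IsAcyclic)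
    (c k s : ℕ) (hs : c + 2 ≤ s) :
    ∃ n : ℕ, ∀ (V : Type) [Fintype V] (G : SimpleGraph V) (B : Set (Finset V))
      (cl : Finset V → V → ℕ), Blk G c k s B cl → IsEmpty (F ↪g G) →
      G.chromaticNumber ≤ n := by
  obtain ⟨t, p, e, hp, he, hadj⟩ := embed_tree F hF univ
  obtain ⟨n, hn⟩ := abstract c k s hs p hp t
  refine ⟨n, fun V _ G B cl hB hE => ?_⟩
  have : Col G.Adj univ n := by
    apply hn V G B cl hB
    rintro ⟨φ, hφ⟩
    apply hE.false
    have hne : ∀ x y, x ≠ y → φ (e x) ≠ φ (e y) := fun x y h =>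
      hφ.ne (he x (mem_univ _)) (he y (mem_univ _)) (hadj x (mem_univ _) y (mem_univ _) h).1
    have h1 : ∀ x y, e x < e y → (G.Adj (φ (e x)) (φ (e y)) ↔ F.Adj x y) := by
      intro x y h
      have hxy : x ≠ y := fun a => by rw [a] at h; omega
      rw [(hφ.2 _ (he y (mem_univ _)) _ h).2, (hadj x (mem_univ _) y (mem_univ _) hxy).2 h]
    refine ⟨⟨fun x => φ (e x), fun x y h => ?_⟩, ?_⟩
    · by_contra a
      exact hne x y a h
    · intro x y
      show G.Adj (φ (e x)) (φ (e y)) ↔ F.Adj x y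
      by_cases a : x = y
      · simp [a]
      · rcases lt_or_gt_of_ne (hadj x (mem_univ _) y (mem_univ _) a).1 with b | b
        · exact h1 x y b
        · rw [G.adj_comm, F.adj_comm]; exact h1 y x b
  obtain ⟨f, f1, f2⟩ := this
  apply SimpleGraph.Colorable.chromaticNumber_le
  exact ⟨SimpleGraph.Coloring.mk (fun v => ⟨f v, f1 v (mem_univ _)⟩) (fun {u v} h e =>
    f2 u (mem_univ _) v (mem_univ _) h.ne h (congrArg Fin.val e))⟩

end Pool.Agent.H.MP_27ff1b_co
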