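import Mathlib

namespace Pool.Agent.H.MP_27ff1b_co

open Module

variable {W : Type} [AddCommGroup W] [Module ℝ W] [FiniteDimensional ℝ W]

/-- two subspaces share a nonzero vector -/
def Mt (L L' : Submodule ℝ W) : Prop := ∃ x, x ≠ 0 ∧ x ∈ L ∧ x ∈ L'

omit [FiniteDimensional ℝ W] in
theorem Mt.symm {L L' : Submodule ℝ W} (h : Mt L L') : Mt L' L := by
  obtain ⟨x, a, b, c⟩ := h
  exact ⟨x, a, c, b⟩

theorem two {L : Submodule ℝ W} (hL : finrank ℝ L = 2) {x y z : W} (hx : x ∈ L) (hy : y ∈ L)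
    (hx0 : x ≠ 0) (hxy : ∀ a : ℝ, y ≠ a • x) (hz : z ∈ L) : ∃ a b : ℝ, z = a • x + b • y := by
  have hli : LinearIndependent ℝ ![x, y] :=
    (LinearIndependent.pair_iff' hx0).2 (fun a h => hxy a h.symm)
  have h1 := finrank_span_eq_card hli
  have h2 : Submodule.span ℝ (Set.range ![x, y]) ≤ L := by
    rw [Submodule.span_le]
    rintro _ ⟨i, rfl⟩
    fin_cases i
    · exact hx
    · exact hy
  have h3 := Submodule.eq_of_le_of_finrank_eq h2 (by rw [h1, hL]; simp)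
  rw [← h3, Matrix.range_cons_cons_empty, Submodule.mem_span_pair] at hz
  obtain ⟨a, b, h⟩ := hz
  exact ⟨a, b, h.symm⟩

theorem prop4 {L P : Submodule ℝ W} (hL : finrank ℝ L = 2) (hLP : ¬ L ≤ P) {x y : W}
    (hx : x ∈ L) (hy : y ∈ L) (hx' : x ∈ P) (hy' : y ∈ P) (hx0 : x ≠ 0) :
    ∃ a : ℝ, y = a • x := by
  by_contra hc
  push Not at hc
  apply hLP
  intro z hz
  obtain ⟨a, b, rfl⟩ := two hL hx hy hx0 hc hz
  exact P.add_mem (P.smul_mem _ hx') (P.smul_mem _ hy')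

theorem not_le {L L' : Submodule ℝ W} (hL : finrank ℝ L = 2) (hL' : finrank ℝ L' = 2)
    (hne : L ≠ L') : ¬ L ≤ L' :=
  fun h => hne (Submodule.eq_of_le_of_finrank_eq h (by rw [hL, hL']))

theorem plane_mt {L L' P : Submodule ℝ W} (hL : finrank ℝ L = 2) (hL' : finrank ℝ L' = 2)
    (hP : finrank ℝ P = 3) (h1 : L ≤ P) (h2 : L' ≤ P) : Mt L L' := by
  have a := Submodule.finrank_sup_add_finrank_inf_eq L L'
  have b : finrank ℝ ↥(L ⊔ L') ≤ finrank ℝ P := Submodule.finrank_mono (sup_le h1 h2)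
  have c : L ⊓ L' ≠ ⊥ := by
    intro e
    rw [e, finrank_bot] at a
    omega
  obtain ⟨x, hx, hx0⟩ := (Submodule.ne_bot_iff _).1 c
  exact ⟨x, hx0, hx.1, hx.2⟩

theorem sup_ge {L L' : Submodule ℝ W} (hL : finrank ℝ L = 2) (hL' : finrank ℝ L' = 2)
    (hne : L ≠ L') : 3 ≤ finrank ℝ ↥(L ⊔ L') := by
  have : L' < L ⊔ L' := lt_of_le_of_ne le_sup_right (fun e => not_le hL hL' hne (e ▸ le_sup_left))
  have := Submodule.finrank_lt_finrank_of_lt this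
  omega

theorem plane_eq {L L' P : Submodule ℝ W} (hL : finrank ℝ L = 2) (hL' : finrank ℝ L' = 2)
    (hne : L ≠ L') (hP : finrank ℝ P = 3) (h1 : L ≤ P) (h2 : L' ≤ P) : L ⊔ L' = P := by
  have a := sup_ge hL hL' hne
  have b : finrank ℝ ↥(L ⊔ L') ≤ finrank ℝ P := Submodule.finrank_mono (sup_le h1 h2)
  exact Submodule.eq_of_le_of_finrank_eq (sup_le h1 h2) (by omega)

theorem sup_three {L L' : Submodule ℝ W} (hL : finrank ℝ L = 2) (hL' : finrank ℝ L' = 2)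
    (hne : L ≠ L') (hm : Mt L L') : finrank ℝ ↥(L ⊔ L') = 3 := by
  have a := sup_ge hL hL' hne
  have b := Submodule.finrank_sup_add_finrank_inf_eq L L'
  have c : finrank ℝ ↥(L ⊓ L') ≠ 0 := by
    intro e
    rw [Submodule.finrank_eq_zero] at e
    obtain ⟨x, h0, h1, h2⟩ := hm
    have : x ∈ L ⊓ L' := ⟨h1, h2⟩
    rw [e] at this
    exact h0 this
  omega

theorem thr {L L' A : Submodule ℝ W} (hL : finrank ℝ L = 2) (hL' : finrank ℝ L' = 2)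
    (hA : finrank ℝ A = 2) (hne : L ≠ L') {z : W} (hz : z ∈ L) (hz' : z ∈ L')
    (h1 : Mt A L) (h2 : Mt A L') : z ∈ A ∨ A ≤ L ⊔ L' := by
  obtain ⟨u, u0, uA, uL⟩ := h1
  obtain ⟨v, v0, vA, vL⟩ := h2
  by_contra hc
  push Not at hc
  obtain ⟨a, rfl⟩ := prop4 hA hc.2 vA uA (Submodule.mem_sup_right vL)
    (Submodule.mem_sup_left uL) v0
  obtain ⟨b, rfl⟩ := prop4 hL (not_le hL hL' hne) uL hz (L'.smul_mem _ vL) hz' u0
  exact hc.1 (A.smul_mem _ uA)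

theorem trans_skew {a1 a2 a3 b b' : Submodule ℝ W} (h1 : finrank ℝ a1 = 2)
    (h2 : finrank ℝ a2 = 2) (h3 : finrank ℝ a3 = 2) (hb : finrank ℝ b = 2)
    (hb' : finrank ℝ b' = 2) (s12 : ¬ Mt a1 a2) (s13 : ¬ Mt a1 a3) (s23 : ¬ Mt a2 a3)
    (m1 : Mt a1 b) (m2 : Mt a2 b) (m3 : Mt a3 b) (n1 : Mt a1 b') (n2 : Mt a2 b')
    (n3 : Mt a3 b') (hne : b ≠ b') : ¬ Mt b b' := by
  intro hm
  have hP := sup_three hb hb' hne hm
  obtain ⟨z, z0, zb, zb'⟩ := hm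
  rcases thr hb hb' h1 hne zb zb' m1 n1 with x1 | x1 <;>
  rcases thr hb hb' h2 hne zb zb' m2 n2 with x2 | x2 <;>
  rcases thr hb hb' h3 hne zb zb' m3 n3 with x3 | x3
  · exact s12 ⟨z, z0, x1, x2⟩
  · exact s12 ⟨z, z0, x1, x2⟩
  · exact s13 ⟨z, z0, x1, x3⟩
  · exact s23 (plane_mt h2 h3 hP x2 x3)
  · exact s23 ⟨z, z0, x2, x3⟩
  · exact s13 (plane_mt h1 h3 hP x1 x3)
  · exact s12 (plane_mt h1 h2 hP x1 x2)
  · exact s12 (plane_mt h1 h2 hP x1 x2)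

theorem two' {L A1 A2 : Submodule ℝ W} (hL : finrank ℝ L = 2) (s : ¬ Mt A1 A2) {x y z : W}
    (hx : x ∈ L) (hy : y ∈ L) (hx1 : x ∈ A1) (hy2 : y ∈ A2) (hx0 : x ≠ 0) (hy0 : y ≠ 0)
    (hz : z ∈ L) : ∃ a b : ℝ, z = a • x + b • y :=
  two hL hx hy hx0 (fun a e => s ⟨y, hy0, e ▸ A1.smul_mem a hx1, hy2⟩) hz

theorem split {L A1 A2 A3 : Submodule ℝ W} (hL : finrank ℝ L = 2) (s12 : ¬ Mt A1 A2)
    (s13 : ¬ Mt A1 A3) (s23 : ¬ Mt A2 A3) (m1 : Mt A1 L) (m2 : Mt A2 L) {z : W} (z0 : z ≠ 0)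
    (z3 : z ∈ A3) (zL : z ∈ L) :
    ∃ x y, x ≠ 0 ∧ y ≠ 0 ∧ x ∈ A1 ∧ x ∈ L ∧ y ∈ A2 ∧ y ∈ L ∧ z = x + y := by
  obtain ⟨x, x0, x1, xL⟩ := m1
  obtain ⟨y, y0, y2, yL⟩ := m2
  obtain ⟨a, b, e⟩ := two' hL s12 xL yL x1 y2 x0 y0 zL
  refine ⟨a • x, b • y, ?_, ?_, A1.smul_mem _ x1, L.smul_mem _ xL, A2.smul_mem _ y2,
    L.smul_mem _ yL, e⟩
  · intro h
    rw [h, zero_add] at e
    exact s23 ⟨z, z0, e ▸ A2.smul_mem _ y2, z3⟩
  · intro h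
    rw [h, add_zero] at e
    exact s13 ⟨z, z0, e ▸ A1.smul_mem _ x1, z3⟩

omit [FiniteDimensional ℝ W] in
theorem uniq {A1 A2 : Submodule ℝ W} (s : ¬ Mt A1 A2) {x x' y y' : W} (hx : x ∈ A1)
    (hx' : x' ∈ A1) (hy : y ∈ A2) (hy' : y' ∈ A2) (e : x + y = x' + y') : x = x' ∧ y = y' := by
  have h : x - x' = 0 := by
    by_contra h
    refine s ⟨x - x', h, A1.sub_mem hx hx', ?_⟩
    have : x - x' = y' - y := by rw [sub_eq_sub_iff_add_eq_add, e, add_comm]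
    rw [this]; exact A2.sub_mem hy' hy
  have h1 : x = x' := sub_eq_zero.1 h
  rw [h1] at e
  exact ⟨h1, add_left_cancel e⟩

theorem gallucci {a1 a2 a3 b1 b2 b3 a b : Submodule ℝ W}
    (h3 : finrank ℝ a3 = 2) (k1 : finrank ℝ b1 = 2)
    (k2 : finrank ℝ b2 = 2) (k3 : finrank ℝ b3 = 2) (ha : finrank ℝ a = 2)
    (hb : finrank ℝ b = 2) (s12 : ¬ Mt a1 a2) (s13 : ¬ Mt a1 a3) (s23 : ¬ Mt a2 a3)
    (t12 : ¬ Mt b1 b2) (t13 : ¬ Mt b1 b3) (t23 : ¬ Mt b2 b3)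
    (m11 : Mt a1 b1) (m21 : Mt a2 b1) (m31 : Mt a3 b1)
    (m12 : Mt a1 b2) (m22 : Mt a2 b2) (m32 : Mt a3 b2)
    (m13 : Mt a1 b3) (m23 : Mt a2 b3) (m33 : Mt a3 b3)
    (n1 : Mt b1 a) (n2 : Mt b2 a) (n3 : Mt b3 a)
    (o1 : Mt a1 b) (o2 : Mt a2 b) (o3 : Mt a3 b) : Mt a b := by
  obtain ⟨q1, q10, q1a, q1b⟩ := m31
  obtain ⟨q2, q20, q2a, q2b⟩ := m32
  obtain ⟨p11, p21, -, -, p11a, p11b, p21a, p21b, e1⟩ := split k1 s12 s13 s23 m11 m21 q10 q1a q1b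
  obtain ⟨p12, p22, -, -, p12a, p12b, p22a, p22b, e2⟩ := split k2 s12 s13 s23 m12 m22 q20 q2a q2b
  have tr : ∀ c : Submodule ℝ W, finrank ℝ c = 2 → Mt a1 c → Mt a2 c → Mt a3 c →
      ∃ s t : ℝ, s • p11 + t • p12 ∈ c ∧ s • p21 + t • p22 ∈ c ∧ s • p11 + t • p12 ≠ 0 ∧
        s • p21 + t • p22 ≠ 0 := by
    intro c hc c1 c2 c3
    obtain ⟨z, z0, za, zc⟩ := c3
    obtain ⟨x, y, x0, y0, xa, xc, ya, yc, e⟩ := split hc s12 s13 s23 c1 c2 z0 za zc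
    obtain ⟨s, t, e'⟩ := two' h3 t12 q1a q2a q1b q2b q10 q20 za
    obtain ⟨r1, r2⟩ := uniq s12 xa (a1.add_mem (a1.smul_mem s p11a) (a1.smul_mem t p12a)) ya
      (a2.add_mem (a2.smul_mem s p21a) (a2.smul_mem t p22a))
      (by rw [← e, e', e1, e2]; module)
    exact ⟨s, t, r1 ▸ xc, r2 ▸ yc, r1 ▸ x0, r2 ▸ y0⟩
  obtain ⟨s3, t3, u3, v3, u0, v0⟩ := tr b3 k3 m13 m23 m33
  obtain ⟨s, t, u, v, u0', v0'⟩ := tr b hb o1 o2 o3
  have hs3 : s3 ≠ 0 := by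
    intro h
    rw [h, zero_smul, zero_add] at u3 u0
    exact t23 ⟨_, u0, b2.smul_mem _ p12b, u3⟩
  have ht3 : t3 ≠ 0 := by
    intro h
    rw [h, zero_smul, add_zero] at u3 u0
    exact t13 ⟨_, u0, b1.smul_mem _ p11b, u3⟩
  obtain ⟨z, z0, zb, za⟩ := n3
  obtain ⟨x, y, -, -, xb, xa, yb, ya, e⟩ := split ha t12 t13 t23 n1 n2 z0 zb za
  obtain ⟨l, m, e'⟩ := two' k3 s12 u3 v3 (a1.add_mem (a1.smul_mem s3 p11a) (a1.smul_mem t3 p12a))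
    (a2.add_mem (a2.smul_mem s3 p21a) (a2.smul_mem t3 p22a)) u0 v0 zb
  obtain ⟨r1, r2⟩ := uniq t12 xb
    (b1.smul_mem s3 (b1.add_mem (b1.smul_mem l p11b) (b1.smul_mem m p21b))) yb
    (b2.smul_mem t3 (b2.add_mem (b2.smul_mem l p12b) (b2.smul_mem m p22b)))
    (by rw [← e, e']; module)
  rw [r1, a.smul_mem_iff hs3] at xa
  rw [r2, a.smul_mem_iff ht3] at ya
  refine ⟨l • (s • p11 + t • p12) + m • (s • p21 + t • p22), ?_, ?_,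
    b.add_mem (b.smul_mem _ u) (b.smul_mem _ v)⟩
  · intro h
    obtain ⟨w1, w2⟩ := uniq s12
      (a1.smul_mem l (a1.add_mem (a1.smul_mem s p11a) (a1.smul_mem t p12a))) a1.zero_mem
      (a2.smul_mem m (a2.add_mem (a2.smul_mem s p21a) (a2.smul_mem t p22a))) a2.zero_mem
      (by rw [h, add_zero])
    have hl := (smul_eq_zero.1 w1).resolve_right u0'
    have hm := (smul_eq_zero.1 w2).resolve_right v0'
    rw [hl, hm, zero_smul, zero_smul, add_zero] at e'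
    exact z0 e'
  · have : l • (s • p11 + t • p12) + m • (s • p21 + t • p22) =
        s • (l • p11 + m • p21) + t • (l • p12 + m • p22) := by module
    rw [this]
    exact a.add_mem (a.smul_mem _ xa) (a.smul_mem _ ya)

end Pool.Agent.H.MP_27ff1b_co
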