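import Pool.Agent.H.MP_27ff1b_co.C
import Pool.Agent.H.MP_27ff1b_co.D

namespace Pool.Agent.H.MP_27ff1b_co

open Finset Module

variable {V : Type}

/-- the two rulings of a regulus, combinatorially -/
structure Reg (M : V → V → Prop) (A A' : Finset V) : Prop where
  c1 : 3 ≤ A.card
  c2 : 3 ≤ A'.card
  s1 : ∀ u ∈ A, ∀ v ∈ A, u ≠ v → ¬ M u v
  s2 : ∀ u ∈ A', ∀ v ∈ A', u ≠ v → ¬ M u v
  m1 : ∀ u ∈ A, ∀ v ∈ A', M u v
  m2 : ∀ u ∈ A', ∀ v ∈ A, M u v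
  d1 : ∀ x, ∀ T ⊆ A', 3 ≤ T.card → (∀ y ∈ T, M x y) → x ∈ A
  d2 : ∀ x, ∀ T ⊆ A, 3 ≤ T.card → (∀ y ∈ T, M x y) → x ∈ A'

theorem Reg.symm {M : V → V → Prop} {A A' : Finset V} (h : Reg M A A') : Reg M A' A :=
  ⟨h.c2, h.c1, h.s2, h.s1, h.m2, h.m1, h.d2, h.d1⟩

theorem three [DecidableEq V] {A A1 A2 : Finset V} (h : A ⊆ A1 ∪ A2) (hc : 4 < A.card) :
    (∃ T ⊆ A, T ⊆ A1 ∧ 3 ≤ T.card) ∨ (∃ T ⊆ A, T ⊆ A2 ∧ 3 ≤ T.card) := by
  have h1 : A ⊆ (A ∩ A1) ∪ (A ∩ A2) := by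
    intro x hx
    rcases mem_union.1 (h hx) with a | a
    · exact mem_union_left _ (mem_inter.2 ⟨hx, a⟩)
    · exact mem_union_right _ (mem_inter.2 ⟨hx, a⟩)
  have h2 := card_le_card h1
  have h3 := card_union_le (A ∩ A1) (A ∩ A2)
  by_cases a : 3 ≤ (A ∩ A1).card
  · exact Or.inl ⟨_, inter_subset_left, inter_subset_right, a⟩
  · exact Or.inr ⟨_, inter_subset_left, inter_subset_right, by omega⟩

theorem reg_eq [DecidableEq V] {M : V → V → Prop} {A1 A1' A2 A2' T : Finset V}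
    (h1 : Reg M A1 A1') (h2 : Reg M A2 A2') (t1 : T ⊆ A1) (t2 : T ⊆ A2) (hT : 3 ≤ T.card) :
    A1 ∪ A1' = A2 ∪ A2' := by
  have e : A1' = A2' := Subset.antisymm
    (fun y hy => h2.d2 y T t2 hT (fun x hx => h1.m2 y hy x (t1 hx)))
    (fun y hy => h1.d2 y T t1 hT (fun x hx => h2.m2 y hy x (t2 hx)))
  subst e
  have e : A1 = A2 := Subset.antisymm
    (fun y hy => h2.d1 y A1' subset_rfl h1.c2 (fun x hx => h1.m1 y hy x hx))
    (fun y hy => h1.d1 y A1' subset_rfl h1.c2 (fun x hx => h2.m1 y hy x hx))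
  rw [e]

theorem reg_eq' [DecidableEq V] {M : V → V → Prop} {A1 A1' A2 A2' T : Finset V}
    (h1 : Reg M A1 A1') (h2 : Reg M A2 A2') (t1 : T ⊆ A1) (t2 : T ⊆ A2 ∪ A2')
    (hT : 3 ≤ T.card) : A1 ∪ A1' = A2 ∪ A2' := by
  by_cases a : T ⊆ A2
  · exact reg_eq h1 h2 t1 a hT
  by_cases b : T ⊆ A2'
  · rw [union_comm A2]; exact reg_eq h1 h2.symm t1 b hT
  exfalso
  obtain ⟨u, hu, hu'⟩ := not_subset.1 a
  obtain ⟨v, hv, hv'⟩ := not_subset.1 b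
  have u2 := (mem_union.1 (t2 hu)).resolve_left hu'
  have v2 := (mem_union.1 (t2 hv)).resolve_right hv'
  exact h1.s1 u (t1 hu) v (t1 hv) (fun e => hu' (e ▸ v2)) (h2.m2 u u2 v v2)

theorem col_multipartite (G : SimpleGraph V) (k : ℕ) (Y : Finset V)
    (hk : ∀ K : Finset V, G.IsClique K → K.card ≤ k)
    (ht : ∀ u ∈ Y, ∀ v ∈ Y, ∀ w ∈ Y, ¬ G.Adj u w → ¬ G.Adj v w → ¬ G.Adj u v) :
    Col G.Adj Y k := by
  classical
  obtain ⟨K, hK, hmax⟩ := exists_max_image (Y.powerset.filter (fun K : Finset V => G.IsClique K))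
    card ⟨∅, by simp⟩
  rw [mem_filter, mem_powerset] at hK
  have : ∀ v, ∃ w, v ∈ Y → w ∈ K ∧ ¬ G.Adj v w := by
    intro v
    by_cases hv : v ∈ Y
    · by_contra hc
      push Not at hc
      have hvK : v ∉ K := fun a => G.loopless.irrefl v ((hc v).2 a)
      have := hmax (insert v K) (mem_filter.2 ⟨mem_powerset.2 (insert_subset hv hK.1), by
        rw [coe_insert]
        exact hK.2.insert (fun b hb _ => (hc b).2 hb)⟩)
      rw [card_insert_of_notMem hvK] at this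
      omega
    · exact ⟨v, fun a => absurd a hv⟩
  choose g hg using this
  refine ⟨fun v => K.toList.idxOf (g v), ?_, ?_⟩
  · intro v hv
    have := List.idxOf_lt_length_of_mem (mem_toList.2 (hg v hv).1)
    rw [length_toList] at this
    exact lt_of_lt_of_le this (hk K hK.2)
  · intro u hu v hv _ hadj e
    have e' : g u = g v := (List.idxOf_inj (mem_toList.2 (hg u hu).1)).1 e
    exact ht u hu v hv (g v) (hK.1 (hg v hv).1) (e' ▸ (hg u hu).2) (hg v hv).2 hadj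

variable {W : Type} [AddCommGroup W] [Module ℝ W] [FiniteDimensional ℝ W]

/-- projective model of a family of affine lines -/
structure Geo (G : SimpleGraph V) (L : V → Submodule ℝ W) (h : W →ₗ[ℝ] ℝ) (k : ℕ) : Prop where
  rk : ∀ v, finrank ℝ (L v) = 2
  inj : Function.Injective L
  aff : ∀ v, ¬ L v ≤ LinearMap.ker h
  adj : ∀ u v, G.Adj u v ↔ u ≠ v ∧ ∃ x, x ∈ L u ∧ x ∈ L v ∧ h x ≠ 0
  clq : ∀ K : Finset V, G.IsClique K → K.card ≤ k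

variable {G : SimpleGraph V} {L : V → Submodule ℝ W} {h : W →ₗ[ℝ] ℝ} {k : ℕ}

omit [FiniteDimensional ℝ W] in
theorem Geo.mt (g : Geo G L h k) {u v : V} (a : G.Adj u v) : Mt (L u) (L v) := by
  obtain ⟨-, x, h1, h2, h3⟩ := (g.adj u v).1 a
  exact ⟨x, fun e => h3 (by rw [e, map_zero]), h1, h2⟩

theorem Geo.nle (g : Geo G L h k) {u v : V} (a : u ≠ v) : ¬ L u ≤ L v :=
  not_le (g.rk u) (g.rk v) (fun e => a (g.inj e))

theorem Geo.plane_col (g : Geo G L h k) {P : Submodule ℝ W} (hP : finrank ℝ P = 3)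
    {Y : Finset V} (hY : ∀ v ∈ Y, L v ≤ P) : Col G.Adj Y k := by
  apply col_multipartite G k Y g.clq
  intro u hu v hv w hw h1 h2 h3
  have huw : u ≠ w := fun e => h2 (e ▸ h3.symm)
  have hvw : v ≠ w := fun e => h1 (e ▸ h3)
  obtain ⟨x, x0, xu, xw⟩ := plane_mt (g.rk u) (g.rk w) hP (hY u hu) (hY w hw)
  obtain ⟨y, y0, yv, yw⟩ := plane_mt (g.rk v) (g.rk w) hP (hY v hv) (hY w hw)
  have hx : h x = 0 := by
    by_contra a
    exact h1 ((g.adj u w).2 ⟨huw, x, xu, xw, a⟩)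
  have hy : h y = 0 := by
    by_contra a
    exact h2 ((g.adj v w).2 ⟨hvw, y, yv, yw, a⟩)
  obtain ⟨a, rfl⟩ := prop4 (g.rk w) (g.aff w) xw yw hx hy x0
  obtain ⟨huv, z, zu, zv, hz⟩ := (g.adj u v).1 h3
  obtain ⟨b, rfl⟩ := prop4 (g.rk u) (g.nle huv) ((L u).smul_mem a xu) zu yv zv y0
  apply hz
  rw [map_smul, hy, smul_zero]

theorem Geo.plane_out (g : Geo G L h k) {P : Submodule ℝ W} {x : V} {A : Finset V}
    (hA : ∀ a ∈ A, L a ≤ P ∧ G.Adj x a) (hc : k < A.card) : L x ≤ P := by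
  by_contra hx
  have : G.IsClique (A : Set V) := by
    intro a ha b hb hab
    obtain ⟨-, y, yx, ya, hy⟩ := (g.adj x a).1 (hA a ha).2
    obtain ⟨-, z, zx, zb, hz⟩ := (g.adj x b).1 (hA b hb).2
    obtain ⟨c, rfl⟩ := prop4 (g.rk x) hx yx zx ((hA a ha).1 ya) ((hA b hb).1 zb)
      (fun e => hy (by rw [e, map_zero]))
    exact (g.adj a b).2 ⟨hab, _, (L a).smul_mem c ya, zb, hz⟩
  have := g.clq A this
  omega

theorem Geo.plane_comp (g : Geo G L h k) {U T : Finset V} (hU : 2 * k + 1 ≤ U.card)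
    (hT : 2 * k + 1 ≤ T.card) (hc : ∀ u ∈ U, ∀ w ∈ T, G.Adj u w) {u u' : V} (hu : u ∈ U)
    (hu' : u' ∈ U) (hne : u ≠ u') (hm : Mt (L u) (L u')) :
    ∃ P : Submodule ℝ W, finrank ℝ P = 3 ∧ (∀ v ∈ U, L v ≤ P) ∧ ∀ v ∈ T, L v ≤ P := by
  classical
  have hne' : L u ≠ L u' := fun e => hne (g.inj e)
  have hP := sup_three (g.rk u) (g.rk u') hne' hm
  obtain ⟨z, z0, zu, zu'⟩ := hm
  have hz : ∀ w ∈ T, ¬ L w ≤ L u ⊔ L u' → z ∈ L w ∧ h z ≠ 0 := by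
    intro w hw hn
    have h1 := (thr (g.rk u) (g.rk u') (g.rk w) hne' zu zu' (g.mt (hc u hu w hw)).symm
      (g.mt (hc u' hu' w hw)).symm).resolve_right hn
    refine ⟨h1, ?_⟩
    obtain ⟨huw, y, yu, yw, hy⟩ := (g.adj u w).1 (hc u hu w hw)
    obtain ⟨c, rfl⟩ := prop4 (g.rk u) (g.nle huw) zu yu h1 yw z0
    intro e
    apply hy
    rw [map_smul, e, smul_zero]
  have h1 : (T.filter (fun w => ¬ L w ≤ L u ⊔ L u')).card ≤ k := by
    apply g.clq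
    intro a ha b hb hab
    rw [mem_coe, mem_filter] at ha hb
    exact (g.adj a b).2 ⟨hab, z, (hz a ha.1 ha.2).1, (hz b hb.1 hb.2).1, (hz a ha.1 ha.2).2⟩
  have h2 := card_filter_add_card_filter_not (s := T) (fun w => L w ≤ L u ⊔ L u')
  have h3 : ∀ v ∈ U, L v ≤ L u ⊔ L u' := by
    intro v hv
    refine g.plane_out (A := T.filter (fun w => L w ≤ L u ⊔ L u')) ?_ (by omega)
    intro a ha
    rw [mem_filter] at ha
    exact ⟨ha.2, hc v hv a ha.1⟩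
  refine ⟨_, hP, h3, fun v hv => g.plane_out (A := U) ?_ (by omega)⟩
  exact fun a ha => ⟨h3 a ha, (hc a ha v hv).symm⟩

theorem Geo.reg_comp [Fintype V] (g : Geo G L h k) {U T : Finset V} (hU : 3 ≤ U.card)
    (hT : 3 ≤ T.card) (hc : ∀ u ∈ U, ∀ w ∈ T, Mt (L u) (L w))
    (sU : ∀ u ∈ U, ∀ v ∈ U, u ≠ v → ¬ Mt (L u) (L v))
    (sT : ∀ u ∈ T, ∀ v ∈ T, u ≠ v → ¬ Mt (L u) (L v)) :
    ∃ A A' : Finset V, Reg (fun u v => Mt (L u) (L v)) A A' ∧ U ⊆ A := by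
  classical
  obtain ⟨a1, a2, a3, ha1, ha2, ha3, n12, n13, n23⟩ := two_lt_card_iff.1 hU
  obtain ⟨b1, b2, b3, hb1, hb2, hb3, o12, o13, o23⟩ := two_lt_card_iff.1 hT
  have s12 := sU _ ha1 _ ha2 n12
  have s13 := sU _ ha1 _ ha3 n13
  have s23 := sU _ ha2 _ ha3 n23
  have t12 := sT _ hb1 _ hb2 o12
  have t13 := sT _ hb1 _ hb3 o13
  have t23 := sT _ hb2 _ hb3 o23
  set A := univ.filter (fun x => Mt (L b1) (L x) ∧ Mt (L b2) (L x) ∧ Mt (L b3) (L x)) with hA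
  set A' := univ.filter (fun x => Mt (L a1) (L x) ∧ Mt (L a2) (L x) ∧ Mt (L a3) (L x)) with hA'
  have mA : ∀ x, x ∈ A ↔ Mt (L b1) (L x) ∧ Mt (L b2) (L x) ∧ Mt (L b3) (L x) := by
    intro x; simp [hA]
  have mA' : ∀ x, x ∈ A' ↔ Mt (L a1) (L x) ∧ Mt (L a2) (L x) ∧ Mt (L a3) (L x) := by
    intro x; simp [hA']
  have hUA : U ⊆ A := fun u hu => (mA u).2 ⟨(hc u hu _ hb1).symm, (hc u hu _ hb2).symm,
    (hc u hu _ hb3).symm⟩
  have hTA : T ⊆ A' := fun u hu => (mA' u).2 ⟨hc _ ha1 u hu, hc _ ha2 u hu, hc _ ha3 u hu⟩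
  have k1 : ∀ u ∈ A, ∀ v ∈ A, u ≠ v → ¬ Mt (L u) (L v) := by
    intro u hu v hv huv
    obtain ⟨x1, x2, x3⟩ := (mA u).1 hu
    obtain ⟨y1, y2, y3⟩ := (mA v).1 hv
    exact trans_skew (g.rk _) (g.rk _) (g.rk _) (g.rk _) (g.rk _) t12 t13 t23 x1 x2 x3 y1 y2 y3
      (fun e => huv (g.inj e))
  have k2 : ∀ u ∈ A', ∀ v ∈ A', u ≠ v → ¬ Mt (L u) (L v) := by
    intro u hu v hv huv
    obtain ⟨x1, x2, x3⟩ := (mA' u).1 hu
    obtain ⟨y1, y2, y3⟩ := (mA' v).1 hv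
    exact trans_skew (g.rk _) (g.rk _) (g.rk _) (g.rk _) (g.rk _) s12 s13 s23 x1 x2 x3 y1 y2 y3
      (fun e => huv (g.inj e))
  have k3 : ∀ u ∈ A, ∀ v ∈ A', Mt (L u) (L v) := by
    intro u hu v hv
    obtain ⟨x1, x2, x3⟩ := (mA u).1 hu
    obtain ⟨y1, y2, y3⟩ := (mA' v).1 hv
    exact gallucci (g.rk _) (g.rk _) (g.rk _) (g.rk _) (g.rk _) (g.rk _) s12 s13 s23 t12 t13 t23
      (hc _ ha1 _ hb1) (hc _ ha2 _ hb1) (hc _ ha3 _ hb1)
      (hc _ ha1 _ hb2) (hc _ ha2 _ hb2) (hc _ ha3 _ hb2)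
      (hc _ ha1 _ hb3) (hc _ ha2 _ hb3) (hc _ ha3 _ hb3) x1 x2 x3 y1 y2 y3
  refine ⟨A, A', ⟨le_trans hU (card_le_card hUA), le_trans hT (card_le_card hTA), k1, k2, k3,
    fun u hu v hv => (k3 v hv u hu).symm, ?_, ?_⟩, hUA⟩
  · intro x S hS hS3 hx
    obtain ⟨y1, y2, y3, hy1, hy2, hy3, p12, p13, p23⟩ := two_lt_card_iff.1 hS3
    obtain ⟨e11, e21, e31⟩ := (mA' y1).1 (hS hy1)
    obtain ⟨e12, e22, e32⟩ := (mA' y2).1 (hS hy2)
    obtain ⟨e13, e23, e33⟩ := (mA' y3).1 (hS hy3)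
    have : ∀ b ∈ T, Mt (L b) (L x) := fun b hb =>
      (gallucci (g.rk _) (g.rk _) (g.rk _) (g.rk _) (g.rk _) (g.rk _) s12 s13 s23
        (k2 _ (hS hy1) _ (hS hy2) p12) (k2 _ (hS hy1) _ (hS hy3) p13)
        (k2 _ (hS hy2) _ (hS hy3) p23) e11 e21 e31 e12 e22 e32 e13 e23 e33
        (hx _ hy1).symm (hx _ hy2).symm (hx _ hy3).symm
        (hc _ ha1 _ hb) (hc _ ha2 _ hb) (hc _ ha3 _ hb)).symm
    exact (mA x).2 ⟨this _ hb1, this _ hb2, this _ hb3⟩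
  · intro x S hS hS3 hx
    obtain ⟨y1, y2, y3, hy1, hy2, hy3, p12, p13, p23⟩ := two_lt_card_iff.1 hS3
    obtain ⟨e11, e21, e31⟩ := (mA y1).1 (hS hy1)
    obtain ⟨e12, e22, e32⟩ := (mA y2).1 (hS hy2)
    obtain ⟨e13, e23, e33⟩ := (mA y3).1 (hS hy3)
    have : ∀ a ∈ U, Mt (L a) (L x) := fun a ha =>
      (gallucci (g.rk _) (g.rk _) (g.rk _) (g.rk _) (g.rk _) (g.rk _) t12 t13 t23
        (k1 _ (hS hy1) _ (hS hy2) p12) (k1 _ (hS hy1) _ (hS hy3) p13)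
        (k1 _ (hS hy2) _ (hS hy3) p23) e11 e21 e31 e12 e22 e32 e13 e23 e33
        (hx _ hy1).symm (hx _ hy2).symm (hx _ hy3).symm
        (hc _ ha _ hb1).symm (hc _ ha _ hb2).symm (hc _ ha _ hb3).symm).symm
    exact (mA' x).2 ⟨this _ ha1, this _ ha2, this _ ha3⟩

theorem Geo.blk [Fintype V] (g : Geo G L h k) :
    ∃ B cl, Blk G (k + 4) (k + 2) (2 * k + 6) B cl := by
  classical
  set B : Set (Finset V) := {Y | (∃ P : Submodule ℝ W, finrank ℝ P = 3 ∧ ∀ v, v ∈ Y ↔ L v ≤ P) ∨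
    ∃ A A', Reg (fun u v => Mt (L u) (L v)) A A' ∧ Y = A ∪ A'} with hB
  have hcol : ∀ Y, ∃ f : V → ℕ, Y ∈ B → ((∀ v ∈ Y, f v < k + 2) ∧
      ∀ u ∈ Y, ∀ v ∈ Y, u ≠ v → G.Adj u v → f u ≠ f v) := by
    intro Y
    by_cases hY : Y ∈ B
    · have : Col G.Adj Y (k + 2) := by
        rcases hY with ⟨P, hP, hY⟩ | ⟨A, A', hR, rfl⟩
        · exact (g.plane_col hP (fun v hv => (hY v).1 hv)).mono subset_rfl (by omega)
            (fun _ _ _ _ _ a => a)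
        · have c1 : Col G.Adj A 1 := ⟨fun _ => 0, by simp,
            fun u hu v hv huv a => absurd (g.mt a) (hR.s1 u hu v hv huv)⟩
          have c2 : Col G.Adj A' 1 := ⟨fun _ => 0, by simp,
            fun u hu v hv huv a => absurd (g.mt a) (hR.s2 u hu v hv huv)⟩
          exact (c1.union c2 (fun v hv => mem_union.1 hv)).mono subset_rfl (by omega)
            (fun _ _ _ _ _ a => a)
      obtain ⟨f, hf⟩ := this
      exact ⟨f, fun _ => hf⟩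
    · exact ⟨fun _ => 0, fun a => absurd a hY⟩
  choose cl hcl using hcol
  have pr : ∀ (P : Submodule ℝ W) (A A' S : Finset V), finrank ℝ P = 3 →
      Reg (fun u v => Mt (L u) (L v)) A A' → (∀ a ∈ S, L a ≤ P) → S ⊆ A ∪ A' →
      4 < S.card → False := by
    intro P A A' S hP hR h1 h2 h3
    rcases three h2 h3 with ⟨T, t1, t2, t3⟩ | ⟨T, t1, t2, t3⟩
    · obtain ⟨u, hu, v, hv, huv⟩ := one_lt_card.1 (show 1 < T.card by omega)
      exact hR.s1 u (t2 hu) v (t2 hv) huv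
        (plane_mt (g.rk u) (g.rk v) hP (h1 u (t1 hu)) (h1 v (t1 hv)))
    · obtain ⟨u, hu, v, hv, huv⟩ := one_lt_card.1 (show 1 < T.card by omega)
      exact hR.s2 u (t2 hu) v (t2 hv) huv
        (plane_mt (g.rk u) (g.rk v) hP (h1 u (t1 hu)) (h1 v (t1 hv)))
  have pl : ∀ (P : Submodule ℝ W) (U : Finset V), finrank ℝ P = 3 → (∀ v ∈ U, L v ≤ P) →
      ∃ Y ∈ B, ∀ u ∈ U, u ∈ Y := fun P U hP hU =>
    ⟨univ.filter (fun v => L v ≤ P), Or.inl ⟨P, hP, by simp⟩, fun u hu => by simp [hU u hu]⟩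
  refine ⟨B, cl, fun Y hY => (hcl Y hY).1,
    fun Y hY u hu v hv a => (hcl Y hY).2 u hu v hv a.ne a, ?_, ?_, ?_⟩
  · rintro Y (⟨P, hP, hY⟩ | ⟨A, A', hR, rfl⟩) v S hS hc
    · exact (hY v).2 (g.plane_out (fun a ha => ⟨(hY a).1 (hS a ha).1, (hS a ha).2⟩) (by omega))
    · rcases three (fun a ha => (hS a ha).1) (by omega) with ⟨T, t1, t2, t3⟩ | ⟨T, t1, t2, t3⟩
      · exact mem_union_right _ (hR.d2 v T t2 t3 (fun y hy => g.mt (hS y (t1 hy)).2))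
      · exact mem_union_left _ (hR.d1 v T t2 t3 (fun y hy => g.mt (hS y (t1 hy)).2))
  · rintro Y (⟨P, hP, hY⟩ | ⟨A, A', hR, rfl⟩) Y' (⟨P', hP', hY'⟩ | ⟨A2, A2', hR2, rfl⟩) S hS hc
    · obtain ⟨u, hu, v, hv, huv⟩ := one_lt_card.1 (show 1 < S.card by omega)
      have hne : L u ≠ L v := fun e => huv (g.inj e)
      have e1 := plane_eq (g.rk u) (g.rk v) hne hP ((hY u).1 (hS u hu).1) ((hY v).1 (hS v hv).1)
      have e2 := plane_eq (g.rk u) (g.rk v) hne hP' ((hY' u).1 (hS u hu).2)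
        ((hY' v).1 (hS v hv).2)
      ext x
      rw [hY, hY', ← e1, e2]
    · exact (pr P A2 A2' S hP hR2 (fun a ha => (hY a).1 (hS a ha).1) (fun a ha => (hS a ha).2)
        (by omega)).elim
    · exact (pr P' A A' S hP' hR (fun a ha => (hY' a).1 (hS a ha).2) (fun a ha => (hS a ha).1)
        (by omega)).elim
    · rcases three (fun a ha => (hS a ha).1) (by omega) with ⟨T, t1, t2, t3⟩ | ⟨T, t1, t2, t3⟩
      · exact reg_eq' hR hR2 t2 (fun a ha => (hS a (t1 ha)).2) t3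
      · rw [union_comm A]
        exact reg_eq' hR.symm hR2 t2 (fun a ha => (hS a (t1 ha)).2) t3
  · intro U T hU hT hc
    by_cases a : ∃ u ∈ U, ∃ v ∈ U, u ≠ v ∧ Mt (L u) (L v)
    · obtain ⟨u, hu, v, hv, huv, hm⟩ := a
      obtain ⟨P, hP, h1, -⟩ := g.plane_comp (by omega) (by omega) hc hu hv huv hm
      exact pl P U hP h1
    by_cases b : ∃ u ∈ T, ∃ v ∈ T, u ≠ v ∧ Mt (L u) (L v)
    · obtain ⟨u, hu, v, hv, huv, hm⟩ := b
      obtain ⟨P, hP, -, h1⟩ := g.plane_comp (U := T) (T := U) (by omega) (by omega)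
        (fun x hx y hy => (hc y hy x hx).symm) hu hv huv hm
      exact pl P U hP h1
    push Not at a b
    obtain ⟨A, A', hR, hUA⟩ := g.reg_comp (U := U) (T := T) (by omega) (by omega)
      (fun x hx y hy => g.mt (hc x hx y hy)) a b
    exact ⟨A ∪ A', Or.inr ⟨A, A', hR, rfl⟩, fun u hu => mem_union_left _ (hUA hu)⟩

end Pool.Agent.H.MP_27ff1b_co
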