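import Pool.Agent.H.MP_27ff1b_co.E

namespace Pool.Agent.H.MP_27ff1b_co

open Module

theorem line_model {E : Type} [AddCommGroup E] [Module ℝ E] [FiniteDimensional ℝ E]
    (l : AffineSubspace ℝ E) (hl : finrank ℝ l.direction = 1) :
    ∃ L : Submodule ℝ (ℝ × E), finrank ℝ L = 2 ∧ (∃ y, y ∈ l) ∧
      ∀ y : E, ((1 : ℝ), y) ∈ L ↔ y ∈ l := by
  have hne : (l : Set E).Nonempty := by
    by_contra hc
    rw [Set.not_nonempty_iff_eq_empty, AffineSubspace.coe_eq_bot_iff] at hc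
    rw [hc, AffineSubspace.direction_bot, finrank_bot] at hl
    omega
  obtain ⟨P, hP⟩ := hne
  have hP' : P ∈ l := hP
  obtain ⟨⟨D, hD⟩, hD0, hDs⟩ := finrank_eq_one_iff'.1 hl
  have hD0' : D ≠ 0 := fun e => hD0 (Subtype.ext e)
  have hli : LinearIndependent ℝ ![((1 : ℝ), P), ((0 : ℝ), D)] := by
    rw [LinearIndependent.pair_iff]
    intro s t h
    have h1 : s = 0 := by simpa using congrArg Prod.fst h
    have h2 : t • D = 0 := by simpa [h1] using congrArg Prod.snd h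
    exact ⟨h1, (smul_eq_zero.1 h2).resolve_right hD0'⟩
  refine ⟨Submodule.span ℝ (Set.range ![((1 : ℝ), P), ((0 : ℝ), D)]), ?_, ⟨P, hP'⟩, ?_⟩
  · rw [finrank_span_eq_card hli]; simp
  · intro y
    rw [Matrix.range_cons_cons_empty, Submodule.mem_span_pair]
    constructor
    · rintro ⟨a, b, h⟩
      have h1 : a = 1 := by simpa using congrArg Prod.fst h
      have h2 : P + b • D = y := by simpa [h1] using congrArg Prod.snd h
      have := AffineSubspace.vadd_mem_of_mem_direction (l.direction.smul_mem b hD) hP'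
      rw [← h2, add_comm]
      exact this
    · intro hy
      obtain ⟨c, hc⟩ := hDs ⟨y - P, AffineSubspace.vsub_mem_direction hy hP'⟩
      have hc' : c • D = y - P := congrArg Subtype.val hc
      refine ⟨1, c, ?_⟩
      ext
      · simp
      · simp [hc']

theorem lines_geo {E : Type} [AddCommGroup E] [Module ℝ E] [FiniteDimensional ℝ E] {V : Type}
    (G : SimpleGraph V) (l : V → AffineSubspace ℝ E) (hinj : Function.Injective l)
    (hl : ∀ v, finrank ℝ (l v).direction = 1)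
    (hG : ∀ u v, G.Adj u v ↔ u ≠ v ∧ ∃ x, x ∈ l u ∧ x ∈ l v) (k : ℕ)
    (hk : ∀ K : Finset V, G.IsClique K → K.card ≤ k) :
    ∃ L : V → Submodule ℝ (ℝ × E), Geo G L (LinearMap.fst ℝ ℝ E) k := by
  choose L h1 h2 h3 using fun v => line_model (l v) (hl v)
  refine ⟨L, h1, ?_, ?_, ?_, hk⟩
  · intro u v e
    apply hinj
    ext y
    rw [← h3, ← h3, e]
  · intro v hle
    obtain ⟨y, hy⟩ := h2 v
    have := hle ((h3 v y).2 hy)
    simp at this
  · intro u v
    rw [hG]
    refine and_congr_right (fun _ => ⟨?_, ?_⟩)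
    · rintro ⟨x, a, b⟩
      exact ⟨(1, x), (h3 u x).2 a, (h3 v x).2 b, by simp⟩
    · rintro ⟨⟨a, x⟩, b, c, d⟩
      have d' : a ≠ 0 := d
      have e : a⁻¹ • (a, x) = ((1 : ℝ), a⁻¹ • x) := by
        ext
        · simp [d']
        · simp
      exact ⟨a⁻¹ • x, (h3 u _).1 (e ▸ (L u).smul_mem _ b), (h3 v _).1 (e ▸ (L v).smul_mem _ c)⟩

theorem main {α : Type} [Fintype α] (F : SimpleGraph α) (hF : F.IsAcyclic) :
    ∃ f : ℕ → ℕ, ∀ (E : Type) [AddCommGroup E] [Module ℝ E] [FiniteDimensional ℝ E]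
      (V : Type) [Fintype V] (G : SimpleGraph V) (l : V → AffineSubspace ℝ E),
      Function.Injective l → (∀ v, finrank ℝ (l v).direction = 1) →
      (∀ u v, G.Adj u v ↔ u ≠ v ∧ ∃ x, x ∈ l u ∧ x ∈ l v) → IsEmpty (F ↪g G) →
      G.chromaticNumber ≤ f G.cliqueNum := by
  choose f hf using fun k => abstract_forest F hF (k + 4) (k + 2) (2 * k + 6) (by omega)
  refine ⟨f, fun E _ _ _ V _ G l hinj hl hG hE => ?_⟩
  obtain ⟨L, g⟩ := lines_geo G l hinj hl hG G.cliqueNum (fun K hK => hK.card_le_cliqueNum)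
  obtain ⟨B, cl, hB⟩ := g.blk
  exact hf _ V G B cl hB hE

end Pool.Agent.H.MP_27ff1b_co
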